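import Pool.Agent.Helper51.Hart.Defs2
import Pool.Agent.Helper7.KE.C1

/-!
HT-20: the mean value estimate for the square of a holomorphic function.
-/

set_option autoImplicit false

open MeasureTheory Set Filter Topology Metric Complex
open scoped ComplexConjugate ENNReal

namespace Pool.Helper51.Hart

/-- HT-20 -/
theorem mean_sq {w : ℂ} {l K : ℝ} (hl : 0 < l) (hK : 0 ≤ K) {f : ℂ → ℂ}
    (hf : DifferentiableOn ℂ f (ball w l))
    (h : ∫⁻ z in ball w l, ENNReal.ofReal (‖f z‖ ^ 2) ≤ ENNReal.ofReal K) :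
    ‖f w‖ ^ 2 * l ^ 2 ≤ 4 * K := by
  have key : ∀ r : ℝ, 0 < r → r < l → Real.pi * r ^ 2 * ‖f w‖ ^ 2 ≤ K := by
    intro r hr hrl
    have hb : closedBall w r ⊆ ball w l := closedBall_subset_ball hrl
    have h1 := Pool.Agent.Helper7.KE.integral_ball_hol (g := fun z => f z ^ 2) isOpen_ball hb
      (hf.pow 2)
    have hvol : (volume (ball w r)).toReal = Real.pi * r ^ 2 := by
      rw [Complex.volume_ball]
      simp [ENNReal.toReal_ofReal hr.le]
      ring
    have hcont : ContinuousOn (fun z => ‖f z‖ ^ 2) (ball w r) :=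
      (hf.continuousOn.mono (ball_subset_closedBall.trans hb)).norm.pow 2
    have hm : AEStronglyMeasurable (fun z => ‖f z‖ ^ 2) (volume.restrict (ball w r)) :=
      hcont.aestronglyMeasurable measurableSet_ball
    have h2 : ∫ z in ball w r, ‖f z‖ ^ 2 ≤ K := by
      rw [integral_eq_lintegral_of_nonneg_ae (Eventually.of_forall fun z => by positivity) hm]
      refine ENNReal.toReal_le_of_le_ofReal hK ?_
      refine le_trans ?_ h
      exact lintegral_mono_set (ball_subset_closedBall.trans hb)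
    calc Real.pi * r ^ 2 * ‖f w‖ ^ 2 = ‖((volume (ball w r)).toReal : ℂ) * (f w) ^ 2‖ := by
          rw [hvol, norm_mul, norm_pow, Complex.norm_real,
            Real.norm_of_nonneg (by positivity)]
      _ = ‖∫ z in ball w r, f z ^ 2‖ := by rw [h1]
      _ ≤ ∫ z in ball w r, ‖f z ^ 2‖ := norm_integral_le_integral_norm _
      _ = ∫ z in ball w r, ‖f z‖ ^ 2 := by simp only [norm_pow]
      _ ≤ K := h2
  have hlim : Tendsto (fun r : ℝ => Real.pi * r ^ 2 * ‖f w‖ ^ 2) (𝓝[<] l)
      (𝓝 (Real.pi * l ^ 2 * ‖f w‖ ^ 2)) := by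
    have : Continuous fun r : ℝ => Real.pi * r ^ 2 * ‖f w‖ ^ 2 := by fun_prop
    exact (this.tendsto l).mono_left nhdsWithin_le_nhds
  have h3 : Real.pi * l ^ 2 * ‖f w‖ ^ 2 ≤ K := by
    refine le_of_tendsto hlim ?_
    have h4 : ∀ᶠ r : ℝ in 𝓝[<] l, 0 < r :=
      (eventually_gt_nhds hl).filter_mono nhdsWithin_le_nhds
    filter_upwards [self_mem_nhdsWithin, h4] with r hr hr0
    exact key r hr0 hr
  have h5 : 3 < Real.pi := Real.pi_gt_three
  have h6 : 0 ≤ l ^ 2 * ‖f w‖ ^ 2 := by positivity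
  nlinarith

end Pool.Helper51.Hart
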