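import Pool.Agent.Helper51.Hart.Defs2
import Pool.Agent.Helper7.KE.A1

/-!
HT-28: planar integration by parts.
-/

set_option autoImplicit false

open MeasureTheory Set Filter Topology Metric Complex
open scoped ComplexConjugate ENNReal

namespace Pool.Helper51.Hart

open Pool.Agent.Helper7.KE (dz dzb)

theorem dbar_eq (f : ℂ → ℂ) (w : ℂ) : dbar f w = 2 * dzb f w := by
  simp only [dbar, dzb, smul_eq_mul]
  ring

theorem dhol_eq (f : ℂ → ℂ) (w : ℂ) : dhol f w = 2 * dz f w := by
  simp only [dhol, dz, smul_eq_mul]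
  ring

section
variable {P : Set ℂ} {a b : ℂ → ℂ}

theorem ibp_zero {w : ℂ} (hw : w ∉ tsupport a) : a w = 0 ∧ dz a w = 0 ∧ dzb a w = 0 :=
  ⟨image_eq_zero_of_notMem_tsupport hw, (Pool.Agent.Helper7.KE.dz_of_notMem hw).1,
    (Pool.Agent.Helper7.KE.dz_of_notMem hw).2⟩

theorem ibp_prod_c1 (hP : IsOpen P) (ha : ContDiff ℝ 1 a) (hs : tsupport a ⊆ P)
    (hb : ContDiffOn ℝ 1 b P) : ContDiff ℝ 1 (fun w => a w * b w) := by
  rw [contDiff_iff_contDiffAt]
  intro w
  by_cases hw : w ∈ tsupport a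
  · exact ha.contDiffAt.mul (hb.contDiffAt (hP.mem_nhds (hs hw)))
  · have h : a =ᶠ[𝓝 w] fun _ => 0 := notMem_tsupport_iff_eventuallyEq.1 hw
    refine (contDiffAt_const (c := (0 : ℂ))).congr_of_eventuallyEq ?_
    filter_upwards [h] with y hy
    rw [hy, zero_mul]

theorem ibp_cont (hP : IsOpen P) {f g : ℂ → ℂ} (hf : Continuous f) (hs : tsupport a ⊆ P)
    (h0 : ∀ w, w ∉ tsupport a → f w = 0) (hg : ContinuousOn g P) :
    Continuous (fun w => f w * g w) := by
  rw [continuous_iff_continuousAt]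
  intro w
  by_cases hw : w ∈ tsupport a
  · exact hf.continuousAt.mul (hg.continuousAt (hP.mem_nhds (hs hw)))
  · refine (continuousAt_const (y := (0 : ℂ))).congr ?_
    filter_upwards [(isClosed_tsupport a).isOpen_compl.mem_nhds hw] with y hy
    rw [h0 y hy, zero_mul]

theorem ibp_int (hP : IsOpen P) (hac : HasCompactSupport a) {f g : ℂ → ℂ} (hf : Continuous f)
    (hs : tsupport a ⊆ P) (h0 : ∀ w, w ∉ tsupport a → f w = 0) (hg : ContinuousOn g P) :
    Integrable (fun w => f w * g w) := by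
  refine (ibp_cont hP hf hs h0 hg).integrable_of_hasCompactSupport ?_
  refine HasCompactSupport.intro hac.isCompact fun w hw => ?_
  rw [h0 w hw, zero_mul]

theorem dz_cont_on (hP : IsOpen P) (hb : ContDiffOn ℝ 1 b P) :
    ContinuousOn (dz b) P ∧ ContinuousOn (dzb b) P := by
  have h1 : ContinuousOn (fderiv ℝ b) P := hb.continuousOn_fderiv_of_isOpen hP (by norm_num)
  have h2 : ∀ v : ℂ, ContinuousOn (fun z => fderiv ℝ b z v) P := fun v =>
    h1.clm_apply continuousOn_const
  have e1 : dz b = fun z => (2⁻¹ : ℂ) * (fderiv ℝ b z 1 - I * fderiv ℝ b z I) := rfl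
  have e2 : dzb b = fun z => (2⁻¹ : ℂ) * (fderiv ℝ b z 1 + I * fderiv ℝ b z I) := rfl
  rw [e1, e2]
  exact ⟨continuousOn_const.mul ((h2 1).sub (continuousOn_const.mul (h2 I))),
    continuousOn_const.mul ((h2 1).add (continuousOn_const.mul (h2 I)))⟩

theorem ibp_aux (hP : IsOpen P) (ha : ContDiff ℝ 1 a) (hac : HasCompactSupport a)
    (hs : tsupport a ⊆ P) (hb : ContDiffOn ℝ 1 b P) :
    (∫ w, a w * dzb b w = -∫ w, dzb a w * b w) ∧ (∫ w, a w * dz b w = -∫ w, dz a w * b w) := by
  have hprod := ibp_prod_c1 hP ha hs hb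
  have hcs : HasCompactSupport (fun w => a w * b w) := hac.mul_right
  have h1 := Pool.Agent.Helper7.KE.integral_dz_test hprod hcs
  have key : ∀ w, dz (fun w => a w * b w) w = dz a w * b w + a w * dz b w ∧
      dzb (fun w => a w * b w) w = dzb a w * b w + a w * dzb b w := by
    intro w
    by_cases hw : w ∈ tsupport a
    · have e := Pool.Agent.Helper7.KE.dz_smul (f := a) (F := b) (z := w)
        (ha.differentiable (by norm_num) w)
        ((hb.contDiffAt (hP.mem_nhds (hs hw))).differentiableAt (by norm_num))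
      simpa only [smul_eq_mul] using e
    · have hz : w ∉ tsupport (fun w => a w * b w) := fun h => hw (tsupport_mul_subset_left h)
      rw [(ibp_zero hz).2.1, (ibp_zero hz).2.2, (ibp_zero hw).1, (ibp_zero hw).2.1,
        (ibp_zero hw).2.2]
      simp
  have hca := dz_cont_on isOpen_univ (ha.contDiffOn (s := univ))
  have hda : Continuous (dz a) := continuousOn_univ.1 hca.1
  have hba : Continuous (dzb a) := continuousOn_univ.1 hca.2
  obtain ⟨hdb, hbb⟩ := dz_cont_on hP hb
  have i1 := ibp_int hP hac hda hs (fun w hw => (ibp_zero hw).2.1) hb.continuousOn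
  have i2 := ibp_int hP hac hba hs (fun w hw => (ibp_zero hw).2.2) hb.continuousOn
  have i3 := ibp_int hP hac ha.continuous hs (fun w hw => (ibp_zero hw).1) hdb
  have i4 := ibp_int hP hac ha.continuous hs (fun w hw => (ibp_zero hw).1) hbb
  constructor
  · have h2 := h1.2
    simp only [fun w => (key w).2] at h2
    rw [integral_add i2 i4] at h2
    linear_combination h2
  · have h2 := h1.1
    simp only [fun w => (key w).1] at h2
    rw [integral_add i1 i3] at h2
    linear_combination h2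

end

theorem ibp_bar {P : Set ℂ} (hP : IsOpen P) {a b : ℂ → ℂ} (ha : ContDiff ℝ 1 a)
    (hac : HasCompactSupport a) (hs : tsupport a ⊆ P) (hb : ContDiffOn ℝ 1 b P) :
    ∫ w, a w * dbar b w = -∫ w, dbar a w * b w := by
  have h := (ibp_aux hP ha hac hs hb).1
  simp only [dbar_eq]
  have e1 : ∫ w, a w * (2 * dzb b w) = 2 * ∫ w, a w * dzb b w := by
    rw [← integral_const_mul]; congr 1; funext w; ring
  have e2 : ∫ w, 2 * dzb a w * b w = 2 * ∫ w, dzb a w * b w := by
    rw [← integral_const_mul]; congr 1; funext w; ring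
  rw [e1, e2, h]
  ring

theorem ibp_hol {P : Set ℂ} (hP : IsOpen P) {a b : ℂ → ℂ} (ha : ContDiff ℝ 1 a)
    (hac : HasCompactSupport a) (hs : tsupport a ⊆ P) (hb : ContDiffOn ℝ 1 b P) :
    ∫ w, a w * dhol b w = -∫ w, dhol a w * b w := by
  have h := (ibp_aux hP ha hac hs hb).2
  simp only [dhol_eq]
  have e1 : ∫ w, a w * (2 * dz b w) = 2 * ∫ w, a w * dz b w := by
    rw [← integral_const_mul]; congr 1; funext w; ring
  have e2 : ∫ w, 2 * dz a w * b w = 2 * ∫ w, dz a w * b w := by
    rw [← integral_const_mul]; congr 1; funext w; ring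
  rw [e1, e2, h]
  ring

theorem conj_c {n : WithTop ℕ∞} {a : ℂ → ℂ} (ha : ContDiff ℝ n a) :
    ContDiff ℝ n (fun w => conj (a w)) :=
  (Complex.conjCLE : ℂ →L[ℝ] ℂ).contDiff.comp ha

theorem conj_supp {a : ℂ → ℂ} : tsupport (fun w => conj (a w)) = tsupport a := by
  unfold tsupport
  congr 1
  ext w
  simp

theorem conj_cpt {a : ℂ → ℂ} (ha : HasCompactSupport a) :
    HasCompactSupport (fun w => conj (a w)) := by
  unfold HasCompactSupport
  rw [conj_supp]
  exact ha

theorem dhol_conj {a : ℂ → ℂ} (ha : ContDiff ℝ 1 a) (w : ℂ) :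
    dhol (fun w => conj (a w)) w = conj (dbar a w) ∧
      dbar (fun w => conj (a w)) w = conj (dhol a w) := by
  have h := Pool.Agent.Helper7.KE.dz_conj (f := a) (z := w) (ha.differentiable (by norm_num) w)
  rw [dhol_eq, dbar_eq, dbar_eq, dhol_eq, h.1, h.2, map_mul, map_mul, map_ofNat]
  exact ⟨rfl, rfl⟩

theorem dz_c1 {P : Set ℂ} {b : ℂ → ℂ} (hP : IsOpen P) (hb : ContDiffOn ℝ 2 b P) :
    ContDiffOn ℝ 1 (dhol b) P ∧ ContDiffOn ℝ 1 (dbar b) P := by
  have h1 : ContDiffOn ℝ 1 (fderiv ℝ b) P := hb.fderiv_of_isOpen hP (by norm_num)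
  have h2 : ∀ v : ℂ, ContDiffOn ℝ 1 (fun z => fderiv ℝ b z v) P := fun v =>
    h1.clm_apply contDiffOn_const
  unfold dhol dbar
  exact ⟨(h2 1).sub (contDiffOn_const.mul (h2 I)), (h2 1).add (contDiffOn_const.mul (h2 I))⟩

theorem dbar_dhol {P : Set ℂ} {b : ℂ → ℂ} (hP : IsOpen P) (hb : ContDiffOn ℝ 2 b P) {w : ℂ}
    (hw : w ∈ P) : dbar (dhol b) w = dhol (dbar b) w := by
  have h := Pool.Agent.Helper7.KE.dz_comm hP hb hw
  have e1 : dhol b = fun w => (2 : ℂ) • dz b w := by
    funext w; rw [dhol_eq, smul_eq_mul]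
  have e2 : dbar b = fun w => (2 : ℂ) • dzb b w := by
    funext w; rw [dbar_eq, smul_eq_mul]
  have hm := hP.mem_nhds hw
  have hd : DifferentiableAt ℝ (dz b) w := by
    have := ((dz_c1 hP hb).1.contDiffAt hm).differentiableAt (by norm_num)
    have e3 : dz b = fun w => (2⁻¹ : ℂ) * dhol b w := by
      funext w; rw [dhol_eq]; ring
    rw [e3]
    exact this.const_mul _
  have hd' : DifferentiableAt ℝ (dzb b) w := by
    have := ((dz_c1 hP hb).2.contDiffAt hm).differentiableAt (by norm_num)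
    have e3 : dzb b = fun w => (2⁻¹ : ℂ) * dbar b w := by
      funext w; rw [dbar_eq]; ring
    rw [e3]
    exact this.const_mul _
  rw [dbar_eq, dhol_eq, e1, e2]
  have h1 := (Pool.Agent.Helper7.KE.dz_smul (f := fun _ => (2 : ℂ)) (F := dz b) (z := w)
    (differentiableAt_const _) hd).2
  have h2 := (Pool.Agent.Helper7.KE.dz_smul (f := fun _ => (2 : ℂ)) (F := dzb b) (z := w)
    (differentiableAt_const _) hd').1
  rw [h1, h2, Pool.Agent.Helper7.KE.dz_const.1, Pool.Agent.Helper7.KE.dz_const.2, h]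
  simp

theorem energy {P : Set ℂ} (hP : IsOpen P) {a b : ℂ → ℂ} (ha : ContDiff ℝ 2 a)
    (hac : HasCompactSupport a) (hs : tsupport a ⊆ P) (hb : ContDiffOn ℝ 2 b P) :
    ∫ w, (starRingEnd ℂ) (dhol a w) * dhol b w =
      ∫ w, (starRingEnd ℂ) (dbar a w) * dbar b w := by
  have ha1 : ContDiff ℝ 1 a := ha.of_le (by norm_num)
  have hca := conj_c ha1
  have hcs : tsupport (fun w => conj (a w)) ⊆ P := by rw [conj_supp]; exact hs
  have h1 := ibp_bar hP hca (conj_cpt hac) hcs (dz_c1 hP hb).1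
  have h2 := ibp_hol hP hca (conj_cpt hac) hcs (dz_c1 hP hb).2
  simp only [fun w => (dhol_conj ha1 w).1] at h2
  simp only [fun w => (dhol_conj ha1 w).2] at h1
  have h3 : ∫ w, conj (a w) * dbar (dhol b) w = ∫ w, conj (a w) * dhol (dbar b) w := by
    congr 1
    funext w
    by_cases hw : w ∈ P
    · rw [dbar_dhol hP hb hw]
    · rw [image_eq_zero_of_notMem_tsupport (fun h => hw (hs h)), map_zero, zero_mul, zero_mul]
  linear_combination h1 - h2 - h3

theorem poinc {P : Set ℂ} (hP : IsOpen P) {a b : ℂ → ℂ} (ha : ContDiff ℝ 1 a)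
    (hac : HasCompactSupport a) (hs : tsupport a ⊆ P) (hb : ContDiffOn ℝ 1 b P) :
    2 * ∫ w, (starRingEnd ℂ) (a w) * b w =
      -((∫ w, (starRingEnd ℂ) (dbar a w) * (w * b w)) +
        ∫ w, (starRingEnd ℂ) (a w) * (w * dhol b w)) := by
  have hca := conj_c ha
  have hcs : tsupport (fun w => conj (a w)) ⊆ P := by rw [conj_supp]; exact hs
  have hwb : ContDiffOn ℝ 1 (fun w => w * b w) P := contDiffOn_id.mul hb
  have h1 := ibp_hol hP hca (conj_cpt hac) hcs hwb
  simp only [fun w => (dhol_conj ha w).1] at h1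
  have h2 : ∀ w, conj (a w) * dhol (fun w => w * b w) w =
      2 * (conj (a w) * b w) + conj (a w) * (w * dhol b w) := by
    intro w
    by_cases hw : w ∈ P
    · have e1 := (Pool.Agent.Helper7.KE.dz_smul (f := fun w => w) (F := b) (z := w)
        differentiableAt_id
        ((hb.contDiffAt (hP.mem_nhds hw)).differentiableAt (by norm_num))).1
      have e2 := (Pool.Agent.Helper7.KE.dz_hol (F := fun w : ℂ => w) (z := w)
        differentiableAt_id).1
      simp only [smul_eq_mul] at e1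
      rw [dhol_eq, e1, e2, dhol_eq]
      simp only [deriv_id'', one_mul]
      ring
    · rw [image_eq_zero_of_notMem_tsupport (fun h => hw (hs h)), map_zero]
      ring
  simp only [h2] at h1
  have i1 : Integrable (fun w => 2 * (conj (a w) * b w)) :=
    (ibp_int hP hac (f := fun w => conj (a w)) hca.continuous hs (fun w hw => by
      show conj (a w) = 0
      rw [(ibp_zero hw).1, map_zero]) hb.continuousOn).const_mul 2
  have hdb : ContinuousOn (fun w => w * dhol b w) P := by
    refine continuousOn_id.mul ?_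
    have : dhol b = fun w => 2 * dz b w := funext fun w => dhol_eq b w
    rw [this]
    exact continuousOn_const.mul (dz_cont_on hP hb).1
  have i2 : Integrable (fun w => conj (a w) * (w * dhol b w)) :=
    ibp_int hP hac (f := fun w => conj (a w)) hca.continuous hs (fun w hw => by
      show conj (a w) = 0
      rw [(ibp_zero hw).1, map_zero]) hdb
  rw [integral_add i1 i2, integral_const_mul] at h1
  linear_combination h1

end Pool.Helper51.Hart
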